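import Pool.Agent.Y546.WQ.Stm

/-!
# Project WQ: the ideals of the factors of a sum of two `p`-th powers
-/

set_option autoImplicit false
set_option linter.all false

namespace Pool.Agent.Y261.WQ

open Finset Polynomial

variable {R : Type} [CommRing R] [IsDedekindDomain R]

theorem p_dvd {p : ℕ} [Fact p.Prime] {η : R} (hη : IsPrimitiveRoot η p) : 1 - η ∣ (p : R) := by
  have hp : p.Prime := Fact.out
  have h1 : (cyclotomic p R).IsRoot η := hη.isRoot_cyclotomic hp.pos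
  have h2 := Polynomial.sub_dvd_eval_sub 1 η (cyclotomic p R)
  rw [eval_one_cyclotomic_prime, h1, sub_zero] at h2
  exact h2

open Ideal in
theorem main : Pool.Agent.Y546.WQ.S_IDE := by
  intro p _ hp2 R _ _ z hz X Y Z hX hY hZ h hcase
  have hp : p.Prime := Fact.out
  have hodd : Odd p := hp.odd_of_ne_two hp2
  have hp0 : p ≠ 0 := hp.ne_zero
  set G : Ideal R := span {X, Y} with hG
  have hXG : X ∈ G := subset_span (by simp)
  have hYG : Y ∈ G := subset_span (by simp)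
  have hG0 : G ≠ ⊥ := by
    rintro h0
    rw [h0, mem_bot] at hXG
    exact hX hXG
  set S : Finset R := nthRootsFinset p (1 : R) with hS
  have hfac : ∀ ζ : R, ∃ I : Ideal R, span {X + ζ * Y} = G * I := fun ζ =>
    dvd_span_singleton.2 (add_mem hXG (mul_mem_left _ _ hYG))
  choose I hI using hfac
  have hprod : ∏ ζ ∈ S, (X + ζ * Y) = -Z ^ p := by
    rw [← hz.pow_add_pow_eq_prod_add_mul X Y hodd]
    linear_combination h
  have hne : ∀ ζ ∈ S, X + ζ * Y ≠ 0 := by
    intro ζ hζ h0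
    have h1 : ∏ ζ ∈ S, (X + ζ * Y) = 0 := prod_eq_zero hζ h0
    rw [hprod, neg_eq_zero] at h1
    exact hZ (pow_eq_zero_iff hp0 |>.1 h1)
  have hI0 : ∀ ζ ∈ S, I ζ ≠ ⊥ := by
    intro ζ hζ h0
    have h1 := hI ζ
    rw [h0, mul_bot, span_singleton_eq_bot] at h1
    exact hne ζ hζ h1
  have hGp : G ^ p * ∏ ζ ∈ S, I ζ = span {Z} ^ p := by
    have h1 : ∏ ζ ∈ S, span {X + ζ * Y} = G ^ p * ∏ ζ ∈ S, I ζ := by
      rw [prod_congr rfl fun ζ _ => hI ζ, prod_mul_distrib, prod_const, hS, hz.card_nthRootsFinset]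
    rw [← h1, prod_span_singleton, hprod, span_singleton_neg, span_singleton_pow]
  have hGZ : G ∣ span {Z} := by
    have h1 : G ^ p ∣ span {Z} ^ p := ⟨_, hGp.symm⟩
    exact (UniqueFactorizationMonoid.pow_dvd_pow_iff_dvd hp0).1 h1
  obtain ⟨Z', hZ'⟩ := hGZ
  have hprodI : ∏ ζ ∈ S, I ζ = Z' ^ p := by
    rw [hZ', mul_pow] at hGp
    exact mul_left_cancel₀ (pow_ne_zero p hG0) hGp
  have hroot : ∀ ζ ∈ S, ζ ^ p = 1 := fun ζ hζ => (mem_nthRootsFinset hp.pos 1).1 hζ
  have hunit : ∀ ζ ∈ S, IsUnit ζ := fun ζ hζ => IsUnit.of_pow_eq_one (hroot ζ hζ) hp0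
  have hcop : ∀ ζ ∈ S, ∀ ξ ∈ S, ζ ≠ ξ → IsCoprime (I ζ) (I ξ) := by
    intro ζ hζ ξ hξ hne'
    by_contra hcon
    rw [Ideal.isCoprime_iff_sup_eq] at hcon
    obtain ⟨P, hP, hle⟩ := exists_le_maximal _ hcon
    have hPp : P.IsPrime := hP.isPrime
    have hPI : P ∣ I ζ := dvd_iff_le.2 (le_sup_left.trans hle)
    have hPJ : P ∣ I ξ := dvd_iff_le.2 (le_sup_right.trans hle)
    have hP0 : P ≠ ⊥ := by
      rintro rfl
      exact hI0 ζ hζ (zero_dvd_iff.1 hPI)
    have hPr : Prime P := prime_of_isPrime hP0 hPp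
    have m1 : X + ζ * Y ∈ P * G := by
      rw [← dvd_span_singleton, hI, mul_comm P G]
      exact mul_dvd_mul_left G hPI
    have m2 : X + ξ * Y ∈ P * G := by
      rw [← dvd_span_singleton, hI, mul_comm P G]
      exact mul_dvd_mul_left G hPJ
    have m3 : (ζ - ξ) * Y ∈ P * G := by
      have : (ζ - ξ) * Y = (X + ζ * Y) - (X + ξ * Y) := by ring
      rw [this]
      exact sub_mem m1 m2
    have m4 : (ζ - ξ) * X ∈ P * G := by
      have : (ζ - ξ) * X = ζ * (X + ξ * Y) - ξ * (X + ζ * Y) := by ring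
      rw [this]
      exact sub_mem (mul_mem_left _ _ m2) (mul_mem_left _ _ m1)
    have m5 : span {ζ - ξ} * G ≤ P * G := by
      rw [hG, span_mul_span', span_le, ← hG]
      rintro _ ⟨a, ha, b, hb, rfl⟩
      rw [Set.mem_singleton_iff] at ha
      subst ha
      simp only [Set.mem_insert_iff, Set.mem_singleton_iff] at hb
      rcases hb with rfl | rfl
      · exact m4
      · exact m3
    have m6 : P ∣ span {ζ - ξ} := (mul_dvd_mul_iff_right hG0).1 (dvd_iff_le.2 m5)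
    have m7 : ζ - ξ ∈ P := dvd_span_singleton.1 m6
    obtain ⟨u, hu⟩ := hunit ζ hζ
    set η : R := ξ * ((u⁻¹ : Rˣ) : R) with hη
    have e1 : ζ * η = ξ := by
      rw [hη, ← hu]
      calc (u : R) * (ξ * ((u⁻¹ : Rˣ) : R)) = ξ * ((u : R) * ((u⁻¹ : Rˣ) : R)) := by ring
        _ = ξ := by rw [Units.mul_inv, mul_one]
    have e2 : η ^ p = 1 := by
      have h1 : (ζ * η) ^ p = 1 := by rw [e1]; exact hroot ξ hξ
      rwa [mul_pow, hroot ζ hζ, one_mul] at h1
    have e3 : η ≠ 1 := by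
      intro h1
      rw [h1, mul_one] at e1
      exact hne' e1
    have e4 : IsPrimitiveRoot η p := by
      have h1 := IsPrimitiveRoot.orderOf η
      rwa [orderOf_eq_prime e2 e3] at h1
    have e5 : 1 - η ∈ P := by
      have : 1 - η = ((u⁻¹ : Rˣ) : R) * (ζ - ξ) := by
        rw [← e1, ← hu]
        calc 1 - η = (1 - η) * (((u⁻¹ : Rˣ) : R) * (u : R)) := by rw [Units.inv_mul, mul_one]
          _ = _ := by ring
      rw [this]
      exact mul_mem_left _ _ m7
    have e6 : (p : R) ∈ P := P.mem_of_dvd (p_dvd e4) e5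
    refine hcase P hPp e6 ?_
    have h1 : P ∣ Z' ^ p := by
      rw [← hprodI]
      exact hPI.trans (dvd_prod_of_mem _ hζ)
    have h2 : P ∣ span {Z} := by
      rw [hZ']
      exact (hPr.dvd_of_dvd_pow h1).mul_left G
    exact dvd_span_singleton.1 h2
  have hpow := Finset.exists_eq_pow_of_mul_eq_pow_of_coprime hcop hprodI
  have h1S : (1 : R) ∈ S := (mem_nthRootsFinset hp.pos 1).2 (one_pow p)
  have hzS : z ∈ S := (mem_nthRootsFinset hp.pos 1).2 hz.pow_eq_one
  obtain ⟨B, hB⟩ := hpow 1 h1S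
  obtain ⟨A, hA⟩ := hpow z hzS
  refine ⟨A, B, ?_, ?_, ?_⟩
  · rintro rfl
    apply hI0 z hzS
    rw [hA]
    exact zero_pow hp0
  · rintro rfl
    apply hI0 1 h1S
    rw [hB]
    exact zero_pow hp0
  · have h1 := hI 1
    rw [one_mul] at h1
    rw [hI z, h1, hA, hB]
    ring

end Pool.Agent.Y261.WQ
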