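import Pool.Agent.Y546.WQ.Stm2
import Pool.Agent.Y474.WQ.TWO

/-!
# Project WG, job TWOG: the Stickelberger relation modulo a prime above two
-/

set_option autoImplicit false
set_option linter.all false

namespace Pool.Agent.Y261.WQ

open Pool.Agent.Y546.WQ Pool.Agent.Y474.WQ NumberField IsDedekindDomain Polynomial

/-- the value of the polynomial and its reflection in characteristic two -/
theorem refl_val {F : Type} [Field F] (h2 : (2 : F) = 0) (f : Polynomial ℤ) (m a b : ℕ)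
    (hf : f.natDegree ≤ m)
    (h : X ^ b * f.map (Int.castRingHom (ZMod 2)) =
      X ^ a * (f.reflect m).map (Int.castRingHom (ZMod 2))) (y : F) (hy : y ≠ 0) :
    y ^ b * f.eval₂ (Int.castRingHom F) y =
      y ^ (a + m) * f.eval₂ (Int.castRingHom F) y⁻¹ := by
  haveI : CharP F 2 := CharTwo.of_one_ne_zero_of_two_eq_zero one_ne_zero h2
  let ι : ZMod 2 →+* F := ZMod.castHom (dvd_refl 2) F
  have h1 : ∀ q : Polynomial ℤ, (q.map (Int.castRingHom (ZMod 2))).eval₂ ι y =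
      q.eval₂ (Int.castRingHom F) y := by
    intro q
    rw [Polynomial.eval₂_map]
    congr 1
    exact RingHom.ext_int _ _
  have h3 := congrArg (Polynomial.eval₂ ι y) h
  rw [Polynomial.eval₂_mul, Polynomial.eval₂_mul, Polynomial.eval₂_X_pow,
    Polynomial.eval₂_X_pow, h1, h1] at h3
  rw [h3]
  letI : Invertible y⁻¹ := invertibleOfNonzero (inv_ne_zero hy)
  have h4 := Polynomial.eval₂_reflect_mul_pow (Int.castRingHom F) y⁻¹ m f hf
  rw [invOf_eq_inv, inv_inv] at h4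
  rw [← h4, pow_add, inv_pow]
  have h5 : y ^ m ≠ 0 := pow_ne_zero _ hy
  field_simp

/-- the relation in a quotient field of characteristic two -/
theorem rel_F {p : ℕ} [Fact p.Prime] {E : Type} [Field E] [NumberField E] (c : Cyc p E)
    (f : Polynomial ℤ) (n : ℤ) (hn : Odd n)
    (hP : ∀ P : Ideal (𝓞 E), P.IsPrime → (2 : 𝓞 E) ∈ P →
      ∀ w : 𝓞 E, (w : E) = aeval c.z f → w ∉ P)
    (g : E) (i : ℕ) (hrel : th c (aeval c.z f / (n : E)) = c.z ^ i * g ^ p)
    (zO : 𝓞 E) (hz : (zO : E) = c.z) {F : Type} [Field F] (h2 : (2 : F) = 0) (ψ : 𝓞 E →+* F) :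
    ∃ d : F, d ≠ 0 ∧ ∏ t ∈ half p, f.eval₂ (Int.castRingHom F)
      (ψ zO ^ ((t⁻¹ : (ZMod p)ˣ) : ZMod p).val) = ψ zO ^ i * d ^ p := by
  have hpp : p.Prime := Fact.out
  have hp0 : p ≠ 0 := hpp.ne_zero
  have hzp : zO ^ p = 1 := by
    apply RingOfIntegers.coe_injective
    show (algebraMap (𝓞 E) E) _ = (algebraMap (𝓞 E) E) _
    have e2 : (algebraMap (𝓞 E) E) zO = c.z := hz
    rw [map_pow, map_one, e2, c.prim.pow_eq_one]
  have hw0 : ψ zO ≠ 0 := by
    intro h
    have h1 := congrArg ψ hzp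
    rw [map_pow, h, zero_pow hp0, map_one] at h1
    exact zero_ne_one h1
  have h2k : (2 : 𝓞 E) ∈ RingHom.ker ψ := by
    rw [RingHom.mem_ker, map_ofNat]
    exact h2
  have hkb : RingHom.ker ψ ≠ ⊥ := by
    intro h
    rw [h, Ideal.mem_bot] at h2k
    exact two_ne_zero h2k
  let v : HeightOneSpectrum (𝓞 E) := ⟨RingHom.ker ψ, RingHom.ker_isPrime ψ, hkb⟩
  have hab : ∃ al be : 𝓞 E, ¬ (ψ al = 0 ∧ ψ be = 0) ∧ g * (be : E) = (al : E) := by
    obtain ⟨x, d, h | h⟩ := v.exists_primeCompl_mul_eq_or_mul_eq g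
    · refine ⟨x, d, fun hh => ?_, h⟩
      exact d.2 hh.2
    · refine ⟨d, x, fun hh => ?_, h⟩
      exact d.2 hh.1
  obtain ⟨al, be, h0, hgab⟩ := hab
  have hn0 : (n : E) ≠ 0 := by
    intro h
    have h1 : n = 0 := by exact_mod_cast h
    rw [h1] at hn
    exact absurd hn (by decide)
  have hae : ∀ k : ℕ, algebraMap (𝓞 E) E (aeval (zO ^ k) f) = aeval (c.z ^ k) f := by
    intro k
    rw [← Polynomial.aeval_algebraMap_apply, map_pow]
    rw [show algebraMap (𝓞 E) E zO = c.z from hz]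
  have hsig : ∀ t : (ZMod p)ˣ, c.σ t (aeval c.z f) = aeval (c.z ^ (t : ZMod p).val) f := by
    intro t
    have e1 := Polynomial.map_aeval_eq_aeval_map (φ := Int.castRingHom ℤ)
      (ψ := ((c.σ t : E ≃ₐ[ℚ] E) : E →+* E)) (RingHom.ext_int _ _) f c.z
    rw [show (Int.castRingHom ℤ) = RingHom.id ℤ from rfl, Polynomial.map_id] at e1
    rw [← c.σ_z t]
    exact e1
  have hR : (∏ t ∈ half p, aeval (zO ^ ((t⁻¹ : (ZMod p)ˣ) : ZMod p).val) f) * be ^ p =
      (n : 𝓞 E) ^ (half p).card * (zO ^ i * al ^ p) := by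
    apply RingOfIntegers.coe_injective
    have e1 : th c (aeval c.z f / (n : E)) =
        (∏ t ∈ half p, aeval (c.z ^ ((t⁻¹ : (ZMod p)ˣ) : ZMod p).val) f) /
          (n : E) ^ (half p).card := by
      unfold th
      rw [← Finset.prod_const, ← Finset.prod_div_distrib]
      refine Finset.prod_congr rfl fun t _ => ?_
      rw [map_div₀, map_intCast, hsig]
    rw [e1, div_eq_iff (pow_ne_zero _ hn0)] at hrel
    show (algebraMap (𝓞 E) E) _ = (algebraMap (𝓞 E) E) _
    have e2 : (algebraMap (𝓞 E) E) zO = c.z := hz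
    simp only [map_mul, map_pow, map_prod, map_intCast, e2, hae]
    rw [hrel]
    have e3 : (algebraMap (𝓞 E) E) al = g * (algebraMap (𝓞 E) E) be := hgab.symm
    rw [e3, mul_pow]
    ring
  have hRF := congrArg ψ hR
  have hnF : ((n : ℤ) : F) = 1 := by
    obtain ⟨m, rfl⟩ := hn
    push_cast
    rw [h2, zero_mul, zero_add]
  have hψ : ∀ x : 𝓞 E, ψ (aeval x f) = f.eval₂ (Int.castRingHom F) (ψ x) := by
    intro x
    rw [Polynomial.aeval_def, Polynomial.hom_eval₂]
    congr 1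
    exact RingHom.ext_int _ _
  simp only [map_mul, map_pow, map_prod, map_intCast, hψ] at hRF
  rw [hnF, one_pow, one_mul] at hRF
  -- the product is not zero
  have hne : ∏ t ∈ half p, f.eval₂ (Int.castRingHom F)
      (ψ zO ^ ((t⁻¹ : (ZMod p)ˣ) : ZMod p).val) ≠ 0 := by
    refine Finset.prod_ne_zero_iff.2 fun t _ hh => ?_
    have e1 : rs c t⁻¹ (aeval zO f) = aeval (zO ^ ((t⁻¹ : (ZMod p)ˣ) : ZMod p).val) f := by
      apply RingOfIntegers.coe_injective
      have e2 : ((rs c t⁻¹ (aeval zO f) : 𝓞 E) : E) = c.σ t⁻¹ ((aeval zO f : 𝓞 E) : E) := rfl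
      refine e2.trans ?_
      have e3 := hae 1
      rw [pow_one, pow_one] at e3
      have e4 : ((aeval zO f : 𝓞 E) : E) = aeval c.z f := e3
      rw [e4, hsig]
      exact (hae _).symm
    have e5 : ψ (rs c t⁻¹ (aeval zO f)) = 0 := by
      rw [e1, hψ, map_pow]
      exact hh
    refine hP (RingHom.ker (ψ.comp (rs c t⁻¹ : 𝓞 E →+* 𝓞 E))) (RingHom.ker_isPrime _) ?_
      (aeval zO f) ?_ ?_
    · rw [RingHom.mem_ker, map_ofNat]
      exact h2
    · have e3 := hae 1
      rw [pow_one, pow_one] at e3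
      exact e3
    · rw [RingHom.mem_ker]
      exact e5
  have hbe : ψ be ≠ 0 := by
    intro h
    rw [h, zero_pow hp0, mul_zero] at hRF
    have h1 : ψ al ^ p = 0 := (mul_eq_zero.1 hRF.symm).resolve_left (pow_ne_zero _ hw0)
    exact h0 ⟨pow_eq_zero_iff hp0 |>.1 h1, h⟩
  have hal : ψ al ≠ 0 := by
    intro h
    rw [h, zero_pow hp0, mul_zero] at hRF
    have h1 : ψ be ^ p = 0 := (mul_eq_zero.1 hRF).resolve_left hne
    exact h0 ⟨h, pow_eq_zero_iff hp0 |>.1 h1⟩
  refine ⟨ψ al / ψ be, div_ne_zero hal hbe, ?_⟩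
  rw [div_pow, ← mul_div_assoc, eq_div_iff (pow_ne_zero _ hbe)]
  exact hRF

theorem mainTWOG : S_TWOG := by
  intro p _ hp2 E _ _ c f n hn m a b hf hab hP g hg i hrel
  have hpp : p.Prime := Fact.out
  have hp1 := hpp.one_lt
  obtain ⟨M, hM, h2M⟩ := exists_M E
  have hMbot : M ≠ ⊥ := by
    rintro rfl
    rw [Ideal.mem_bot] at h2M
    exact two_ne_zero h2M
  let _ : Field (𝓞 E ⧸ M) := Ideal.Quotient.field M
  let φ : 𝓞 E →+* (𝓞 E ⧸ M) := Ideal.Quotient.mk M
  have h2F : (2 : 𝓞 E ⧸ M) = 0 := by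
    have : φ 2 = 0 := Ideal.Quotient.eq_zero_iff_mem.2 h2M
    rwa [map_ofNat] at this
  -- the root of unity as an integer
  let zO : 𝓞 E := ⟨c.z, c.prim.isIntegral hpp.pos⟩
  have hzO : (zO : E) = c.z := rfl
  have hzprim : IsPrimitiveRoot zO p :=
    IsPrimitiveRoot.of_map_of_injective (f := algebraMap (𝓞 E) E) c.prim
      (RingOfIntegers.coe_injective)
  set w : 𝓞 E ⧸ M := φ zO with hwdef
  have hw : w ^ p = 1 := by rw [hwdef, ← map_pow, hzprim.pow_eq_one, map_one]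
  have hw0 : w ≠ 0 := by
    intro h
    rw [h, zero_pow hpp.ne_zero] at hw
    exact zero_ne_one hw
  have hpF : ((p : ℕ) : 𝓞 E ⧸ M) = 1 := by
    obtain ⟨m, hm⟩ := hpp.odd_of_ne_two hp2
    rw [hm]
    push_cast
    rw [h2F, zero_mul, zero_add]
  have hw1 : w ≠ 1 := by
    intro h
    have h1 := hzprim.geom_sum_eq_zero hpp.one_lt
    have h3 := congrArg φ h1
    rw [map_sum, map_zero] at h3
    have h4 : ∀ j ∈ Finset.range p, φ (zO ^ j) = 1 := by
      intro j _
      rw [map_pow, ← hwdef, h, one_pow]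
    rw [Finset.sum_congr rfl h4, Finset.sum_const, Finset.card_range, nsmul_one, hpF] at h3
    exact one_ne_zero h3
  -- the Frobenius
  have hchar : CharP (𝓞 E ⧸ M) 2 := by
    refine CharTwo.of_one_ne_zero_of_two_eq_zero one_ne_zero h2F
  have hfactp : Fact (Nat.Prime 2) := ⟨Nat.prime_two⟩
  have hF : ∀ x : 𝓞 E ⧸ M, x ^ 2 ^ (p - 1) = x := by
    intro x
    obtain ⟨y, rfl⟩ := Ideal.Quotient.mk_surjective x
    obtain ⟨f, hf⟩ := c.gen (y : E) y.2
    have h1 : y = Polynomial.aeval zO f := by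
      apply RingOfIntegers.coe_injective
      have := Polynomial.aeval_algebraMap_apply E zO f
      exact hf.trans this
    have h3 : ∀ ψ : 𝓞 E →+* (𝓞 E ⧸ M), ψ (Polynomial.aeval zO f) =
        Polynomial.eval₂ (Int.castRingHom _) (ψ zO) f := by
      intro ψ
      rw [Polynomial.aeval_def, Polynomial.hom_eval₂]
      congr 1
      exact RingHom.ext_int _ _
    have h4 := h3 φ
    have h5 := h3 ((iterateFrobenius (𝓞 E ⧸ M) 2 (p - 1)).comp φ)
    rw [RingHom.comp_apply, RingHom.comp_apply, iterateFrobenius_def, iterateFrobenius_def] at h5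
    have h6 : (φ zO) ^ 2 ^ (p - 1) = φ zO := by
      have e1 : 2 ^ (p - 1) % p = 1 := by
        have e2 : ((2 ^ (p - 1) : ℕ) : ZMod p) = ((1 : ℕ) : ZMod p) := by
          push_cast
          refine ZMod.pow_card_sub_one_eq_one ?_
          have : ((2 : ℕ) : ZMod p) ≠ 0 := by
            rw [Ne, ZMod.natCast_eq_zero_iff]
            intro hd
            have := Nat.le_of_dvd (by norm_num) hd
            omega
          exact_mod_cast this
        rw [ZMod.natCast_eq_natCast_iff] at e2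
        have e3 : 2 ^ (p - 1) % p = 1 % p := e2
        rw [e3, Nat.mod_eq_of_lt hpp.one_lt]
      rw [pow_eq_pow_mod _ hw, e1, pow_one]
    rw [h6, ← h4] at h5
    have h7 : Ideal.Quotient.mk M y = φ (Polynomial.aeval zO f) := by rw [← h1]
    rw [h7]
    exact h5
  -- the two relations
  obtain ⟨d1, hd1, hr1⟩ := rel_F c f n hn hP g i hrel zO hzO h2F φ
  obtain ⟨d2, hd2, hr2⟩ := rel_F c f n hn hP g i hrel zO hzO h2F
    (φ.comp (rs c (-1) : 𝓞 E →+* 𝓞 E))
  have hw' : (φ.comp (rs c (-1) : 𝓞 E →+* 𝓞 E)) zO = w⁻¹ := by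
    have e1 : rs c (-1) zO = zO ^ ((-1 : (ZMod p)ˣ) : ZMod p).val := by
      apply RingOfIntegers.coe_injective
      have e2 : ((rs c (-1) zO : 𝓞 E) : E) = c.σ (-1) ((zO : 𝓞 E) : E) := rfl
      refine e2.trans ?_
      rw [hzO, c.σ_z]
      rfl
    have e3 : (φ.comp (rs c (-1) : 𝓞 E →+* 𝓞 E)) zO = φ (rs c (-1) zO) := rfl
    rw [e3, e1, map_pow, Units.val_neg, Units.val_one]
    apply eq_inv_of_mul_eq_one_left
    rw [← hwdef, ← pow_succ]
    have e4 : (-1 : ZMod p).val + 1 = p := by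
      rw [ZMod.neg_val, if_neg one_ne_zero]
      haveI : Fact (1 < p) := ⟨hp1⟩
      rw [ZMod.val_one]
      omega
    rw [e4, hw]
  rw [hw'] at hr2
  rw [← hwdef] at hr1
  have hprod : (w ^ SS p) ^ b * (w ^ i * d1 ^ p) =
      (w ^ SS p) ^ (a + m) * ((w⁻¹) ^ i * d2 ^ p) := by
    rw [← hr1, ← hr2, ← half_ze, ← Finset.prod_pow, ← Finset.prod_pow,
      ← Finset.prod_mul_distrib, ← Finset.prod_mul_distrib]
    refine Finset.prod_congr rfl fun t _ => ?_
    have := refl_val h2F f m a b hf hab (w ^ ((t⁻¹ : (ZMod p)ˣ) : ZMod p).val)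
      (pow_ne_zero _ hw0)
    rw [inv_pow]
    exact this
  -- the exponent
  set k : ℕ := ((m : ZMod p) + a - b).val with hk
  have hkc : ((k : ℕ) : ZMod p) = (m : ZMod p) + a - b := by
    rw [hk, ZMod.natCast_val, ZMod.cast_id', id]
  have hmod : (w ^ SS p) ^ (a + m) = (w ^ SS p) ^ b * w ^ (k * SS p) := by
    rw [← pow_mul, ← pow_mul, ← pow_add]
    rw [pow_eq_pow_mod _ hw, pow_eq_pow_mod (SS p * b + k * SS p) hw]
    congr 1
    have e1 : ((SS p * (a + m) : ℕ) : ZMod p) = ((SS p * b + k * SS p : ℕ) : ZMod p) := by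
      push_cast
      rw [hkc]
      ring
    rw [ZMod.natCast_eq_natCast_iff] at e1
    exact e1
  set v : 𝓞 E ⧸ M := d1 / d2 with hv
  have hv0 : v ≠ 0 := div_ne_zero hd1 hd2
  have hkey : w ^ (k * SS p) = w ^ (2 * i) * v ^ p := by
    rw [hmod, mul_assoc] at hprod
    have e1 := mul_left_cancel₀ (pow_ne_zero _ (pow_ne_zero _ hw0)) hprod
    rw [hv, div_pow, mul_comm 2 i, pow_mul w i 2, pow_two (w ^ i)]
    have e2 : w ^ i ≠ 0 := pow_ne_zero _ hw0
    have e3 : d2 ^ p ≠ 0 := pow_ne_zero _ hd2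
    rw [inv_pow] at e1
    field_simp at e1 ⊢
    linear_combination -e1
  have hsq : ∀ x : 𝓞 E ⧸ M, (x ^ 2 ^ (p - 2)) ^ 2 = x := by
    intro x
    rw [← pow_mul, ← pow_succ]
    rw [show p - 2 + 1 = p - 1 by omega]
    exact hF x
  have hfin := core hw hw1 hF k i (Pi0 := (w ^ (k * SS p)) ^ 2 ^ (p - 2))
    (al := v ^ 2 ^ (p - 2)) (be := 1) (fun h => one_ne_zero h.2) (hsq _) (by
      rw [one_pow, mul_one, hkey, mul_pow, mul_comm 2 i, pow_mul, pow_two, mul_pow,
        ← pow_two, hsq, ← pow_mul, ← pow_mul, mul_comm p])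
  rw [hkc] at hfin
  exact hfin

end Pool.Agent.Y261.WQ
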